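import Pool.Agent.X152.HC.Main

set_option autoImplicit false

/-!
# The convex polygons which are determined by the heat trace at small times

The heat trace of a convex polygon with area `A`, perimeter `L` and angles `α` has the expansion
`A / (4 π t) - L / (8 √(π t)) + ∑ (π ^ 2 - α ^ 2) / (24 π α)` up to a remainder which tends to `0`
(and in fact is exponentially small). Here it is shown which convex polygons are determined by this
expansion among all convex polygons, with any number of vertices: exactly those which are
circumscribed about a circle and have all their angles equal, except possibly one which is larger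
than the others. In particular these are determined by their Dirichlet spectrum.
-/

namespace Pool.Agent.Results.MP_5b0138_an.HeatTraceClassification

open Set Filter Topology
open Pool.Agent.W780.PG (IsConvexPolygon region ang lft)
open Pool.Agent.W703.GP (dirichletEigenvalue)

/-- The heat trace `∑ exp (-t λ_k)`, the sum over the Dirichlet eigenvalues of `Ω`. -/
noncomputable def heatTrace (Ω : Set ℂ) (t : ℝ) : ℝ :=
  ∑' k : ℕ, Real.exp (-(t * dirichletEigenvalue Ω (k + 1)))

/-- The difference of the heat traces tends to `0` at time `0`. -/
def SameHeat (Ω Ω' : Set ℂ) : Prop :=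
  Tendsto (fun t : ℝ => heatTrace Ω t - heatTrace Ω' t) (𝓝[>] 0) (𝓝 0)

/-- The polygon with vertices `p i` is circumscribed about a circle: some point `o`, to the left of
all the sides, has the same distance `r` from all the lines through the sides. -/
def Circumscribed {n : ℕ} (p : Fin (n + 3) → ℂ) : Prop :=
  ∃ (o : ℂ) (r : ℝ), 0 < r ∧ ∀ i, lft (p i) (p (i + 1)) o = r * ‖p (i + 1) - p i‖

/-- All the angles are equal, except possibly one which is larger than the others. -/
def AlmostEquiangular {n : ℕ} (p : Fin (n + 3) → ℂ) : Prop :=
  ∃ k, (∀ i j, i ≠ k → j ≠ k → ang p i = ang p j) ∧ ∀ i, ang p i ≤ ang p k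

theorem result {n : ℕ} {p : Fin (n + 3) → ℂ} (hp : IsConvexPolygon p) :
    (Circumscribed p ∧ AlmostEquiangular p →
      ∀ S : Set ℂ, S.Finite → (interior (convexHull ℝ S)).Nonempty →
        SameHeat (region p) (interior (convexHull ℝ S)) →
          ∃ φ : ℂ ≃ᵢ ℂ, φ '' region p = interior (convexHull ℝ S)) ∧
    (¬ (Circumscribed p ∧ AlmostEquiangular p) →
      ∀ N : ℕ, ∃ m, N < m ∧ ∃ q : Fin (m + 3) → ℂ, IsConvexPolygon q ∧
        SameHeat (region p) (region q) ∧ ¬ ∃ φ : ℂ ≃ᵢ ℂ, φ '' region p = region q) :=
  Pool.Agent.X152.HC.classification hp

end Pool.Agent.Results.MP_5b0138_an.HeatTraceClassification
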