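import Pool.Agent.X40.KT.A8

set_option autoImplicit false

/-!
# Heat traces of circumscribed polygons: ordered angles, repeated angles, kites

The heat trace of a convex polygon at small times determines its area, its perimeter and
`∑ x / (π - x)`, the sum over the exterior angles `x`. Here two polygons with the same heat trace
up to `o(1)` are compared by means of the ordered sequences of their exterior angles: if one of them
is circumscribed about a circle and the differences of the two sequences have few changes of sign,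
then the angles agree. This settles the isospectral problem inside several classes of polygons.
-/

namespace Pool.Agent.Results.MP_5b0138_an.KitesAndRepeatedAngles

open Set Filter Topology
open scoped Real
open Pool.Agent.W780.PG (IsConvexPolygon region ang lft)
open Pool.Agent.W703.GP (dirichletEigenvalue)

/-- The heat trace `∑ exp (-t λ_k)`, the sum over the Dirichlet eigenvalues of `Ω`. -/
noncomputable def heatTrace (Ω : Set ℂ) (t : ℝ) : ℝ :=
  ∑' k : ℕ, Real.exp (-(t * dirichletEigenvalue Ω (k + 1)))

/-- The difference of the heat traces tends to `0` at time `0`. -/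
def SameHeat (Ω Ω' : Set ℂ) : Prop :=
  Tendsto (fun t : ℝ => heatTrace Ω t - heatTrace Ω' t) (𝓝[>] 0) (𝓝 0)

/-- There is an isometry of the plane taking `Ω` to `Ω'`. -/
def Congruent (Ω Ω' : Set ℂ) : Prop := ∃ φ : ℂ ≃ᵢ ℂ, φ '' Ω = Ω'

/-- The polygon with vertices `p i` is circumscribed about a circle: some point `o`, to the left of
all the sides, has the same distance `r` from all the lines through the sides. -/
def Circumscribed {n : ℕ} (p : Fin (n + 3) → ℂ) : Prop :=
  ∃ (o : ℂ) (r : ℝ), 0 < r ∧ ∀ i, lft (p i) (p (i + 1)) o = r * ‖p (i + 1) - p i‖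

/-- The angles of the polygon, with their multiplicities. -/
noncomputable def angles {n : ℕ} (p : Fin (n + 3) → ℂ) : Multiset ℝ :=
  Finset.univ.val.map (ang p)

/-- The numbers `x 0 ≤ x 1 ≤ ...` are the exterior angles of the polygon and some zeros. -/
def Ordered {N : ℕ} (x : Fin N → ℝ) {n : ℕ} (p : Fin (n + 3) → ℂ) : Prop :=
  Monotone x ∧ ∃ k : ℕ, Multiset.map x Finset.univ.val =
    Multiset.map (fun j => π - ang p j) Finset.univ.val + Multiset.replicate k 0

/-- The differences `x i - y i` are `≤ 0`, then `≥ 0`, then `≤ 0` on three successive blocks of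
indices (which may be empty). -/
def LowHighLow {N : ℕ} (x y : Fin N → ℝ) : Prop := ∃ a b : ℕ,
  (∀ i : Fin N, i.val < a → x i ≤ y i) ∧
  (∀ i : Fin N, a ≤ i.val → i.val < b → y i ≤ x i) ∧ (∀ i : Fin N, b ≤ i.val → x i ≤ y i)

/-- The sequence of the angles consists of `m` equal blocks. -/
def Repeats (m : ℕ) {n : ℕ} (p : Fin (n + 3) → ℂ) : Prop :=
  ∃ k, n + 3 = m * k ∧ ∀ i j : Fin (n + 3), i.val % k = j.val % k → ang p i = ang p j

/-- The sequence of the angles consists of `m` equal blocks, and within the block all the angles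
are equal, except possibly one which is larger. -/
def AlmostEquiangularBlocks (m : ℕ) {n : ℕ} (p : Fin (n + 3) → ℂ) : Prop :=
  ∃ k r, n + 3 = m * k ∧ r < k ∧
    (∀ i j : Fin (n + 3), i.val % k ≠ r → j.val % k ≠ r → ang p i = ang p j) ∧
    ∀ i j : Fin (n + 3), j.val % k = r → ang p i ≤ ang p j

/-- All the angles are equal, except possibly one. -/
def OneExceptional {n : ℕ} (p : Fin (n + 3) → ℂ) : Prop :=
  ∃ k, ∀ i j, i ≠ k → j ≠ k → ang p i = ang p j

/-- The convex quadrilateral `p 0, p 1, p 2, p 3` is a kite with the axis `p 0, p 2`. -/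
def IsKite (p : Fin (1 + 3) → ℂ) : Prop :=
  IsConvexPolygon p ∧ ‖p 1 - p 0‖ = ‖p 3 - p 0‖ ∧ ‖p 1 - p 2‖ = ‖p 3 - p 2‖

/-- The angle at `p 1` (equal to the one at `p 3`) is at most, or at least, both other angles. -/
def Extreme (p : Fin (1 + 3) → ℂ) : Prop :=
  (ang p 1 ≤ ang p 0 ∧ ang p 1 ≤ ang p 2) ∨ (ang p 0 ≤ ang p 1 ∧ ang p 2 ≤ ang p 1)

/-- The angle at `p 1` (equal to the one at `p 3`) lies between the two other angles. -/
def Between (p : Fin (1 + 3) → ℂ) : Prop :=
  (ang p 0 ≤ ang p 1 ∧ ang p 1 ≤ ang p 2) ∨ (ang p 2 ≤ ang p 1 ∧ ang p 1 ≤ ang p 0)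

theorem result :
    -- domains with the same eigenvalues have the same heat trace
    (∀ Ω Ω' : Set ℂ, (∀ k, dirichletEigenvalue Ω k = dirichletEigenvalue Ω' k) →
      SameHeat Ω Ω') ∧
    -- (1) the comparison of the ordered angles
    (∀ (n n' N : ℕ) (p : Fin (n + 3) → ℂ) (q : Fin (n' + 3) → ℂ) (x y : Fin N → ℝ),
      IsConvexPolygon p → IsConvexPolygon q → SameHeat (region p) (region q) →
      Circumscribed p → Ordered x p → Ordered y q →
      (LowHighLow x y ∨ (Circumscribed q ∧ LowHighLow y x)) →
        angles p = angles q ∧ Circumscribed q) ∧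
    -- (2) repeated blocks with one larger angle, among all polygons with repeated angles
    (∀ (n n' m : ℕ) (p : Fin (n + 3) → ℂ) (q : Fin (n' + 3) → ℂ),
      IsConvexPolygon p → IsConvexPolygon q → SameHeat (region p) (region q) →
      Circumscribed p → AlmostEquiangularBlocks m p → Repeats m q →
        Congruent (region p) (region q)) ∧
    -- (3) circumscribed polygons whose angles are `m` times the same three angles
    (∀ (n m : ℕ) (p q : Fin (n + 3) → ℂ), n + 3 = m * 3 →
      IsConvexPolygon p → IsConvexPolygon q → SameHeat (region p) (region q) →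
      Circumscribed p → Circumscribed q → Repeats m p → Repeats m q →
        Congruent (region p) (region q)) ∧
    -- (4) circumscribed polygons with all angles but three in common
    (∀ (n n' : ℕ) (p : Fin (n + 3) → ℂ) (q : Fin (n' + 3) → ℂ) (C : Multiset ℝ)
      (a b : Fin 3 → ℝ),
      IsConvexPolygon p → IsConvexPolygon q → SameHeat (region p) (region q) →
      Circumscribed p → Circumscribed q → angles p = C + Multiset.map a Finset.univ.val →
      angles q = C + Multiset.map b Finset.univ.val → angles p = angles q) ∧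
    -- (5) circumscribed polygons with at most one exceptional angle
    (∀ (n n' : ℕ) (p : Fin (n + 3) → ℂ) (q : Fin (n' + 3) → ℂ),
      IsConvexPolygon p → IsConvexPolygon q → SameHeat (region p) (region q) →
      Circumscribed p → Circumscribed q → OneExceptional p → OneExceptional q →
        Congruent (region p) (region q)) ∧
    -- (6) kites
    (∀ p q : Fin (1 + 3) → ℂ, IsKite p → IsKite q → SameHeat (region p) (region q) →
      (Extreme p ∧ Extreme q) ∨ (Between p ∧ Between q) → Congruent (region p) (region q)) ∧
    (∀ p : Fin 3 → Fin (1 + 3) → ℂ, (∀ s, IsKite (p s)) →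
      (∀ s, SameHeat (region (p 0)) (region (p s))) →
        ∃ s t, s ≠ t ∧ Congruent (region (p s)) (region (p t))) := by
  refine ⟨fun Ω Ω' h => ?_, ?_, ?_, ?_, ?_, ?_, ?_, ?_⟩
  · have e : (fun t : ℝ => heatTrace Ω t - heatTrace Ω' t) = fun _ => 0 := by
      funext t
      unfold heatTrace
      simp only [h, sub_self]
    unfold SameHeat
    rw [e]
    exact tendsto_const_nhds
  · intro n n' N p q x y hp hq h hc hx hy hP
    exact (Pool.Agent.X40.KT.part1 hp hq h hc hx hy hP).2
  · intro n n' m p q hp hq h hc hP hQ
    exact Pool.Agent.X40.KT.part2 hp hq h hc hP hQ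
  · intro n m p q hk hp hq h hc hcq hP hQ
    have key : ∀ r : Fin (n + 3) → ℂ, Repeats m r →
        ∀ i j : Fin (n + 3), i.val % 3 = j.val % 3 → ang r i = ang r j := by
      rintro r ⟨k, hk', hr⟩ i j hij
      have hm : 0 < m := by
        rcases Nat.eq_zero_or_pos m with h0 | h0
        · rw [h0, zero_mul] at hk; omega
        · exact h0
      have : k = 3 := Nat.eq_of_mul_eq_mul_left hm (by rw [← hk', hk])
      subst this
      exact hr i j hij
    exact Pool.Agent.X40.KT.part3 hk hp hq h hc hcq (key p hP) (key q hQ)
  · intro n n' p q C a b hp hq h hc hcq ha hb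
    exact Pool.Agent.X40.KT.part6 hp hq h hc hcq C a b ha hb
  · intro n n' p q hp hq h hc hcq h1 h2
    exact Pool.Agent.X40.KT.part7 hp hq h hc hcq h1 h2
  · intro p q hp hq h hT
    exact Pool.Agent.X40.KT.kites hp hq h hT
  · intro p hp h
    exact Pool.Agent.X40.KT.three_kites hp h

end Pool.Agent.Results.MP_5b0138_an.KitesAndRepeatedAngles
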