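import Pool.Agent.X204.STM

/-! Locally uniform Lipschitz stability of the inverse spectral problem for convex polygons: for
almost every convex polygon finitely many eigenvalues, whose number can be chosen the same for all
nearby polygons, determine all nearby polygons up to finitely many analytic families of isospectral
companions, and an error `ε` in these eigenvalues changes the vertices by at most `C ε`, with the
same constant for all nearby polygons. -/

open Set MeasureTheory
open scoped Topology
open Pool.Agent.W780.PG (IsConvexPolygon region)
open Pool.Agent.W703.GP (Isospectral dirichletEigenvalue)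

namespace Pool.Agent.Results.MP_5b0138_an.LipschitzStability

/-- There is an open set `G` of lists of `n + 3` points of the plane, containing Lebesgue-almost
every list of the vertices of a convex polygon, such that each `p` in `G` has a neighbourhood `U`,
finitely many real analytic maps `g 0, …, g (r - 1)` on `U`, a number `K` of eigenvalues and
constants `C` and `δ > 0` with the following property for ALL `p'` in `U`: `p'` and the `g i p'` are
convex polygons, the `g i p'` are isospectral to `p'`, and for `0 ≤ ε ≤ δ`, each convex polygon `q`
with at most `n + 3` vertices whose first `K` Dirichlet eigenvalues differ from those of `p'` by at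
most `ε` has exactly `n + 3` vertices, and these are, after a rotation and a translation, at distance
at most `C ε` from the corresponding vertices of one of the `g i p'`. -/
theorem result (n : ℕ) :
    ∃ G : Set (Fin (n + 3) → ℂ), IsOpen G ∧ volume ({p | IsConvexPolygon p} \ G) = 0 ∧
      ∀ p ∈ G, ∃ U ∈ 𝓝 p, ∃ (r : ℕ) (g : Fin r → (Fin (n + 3) → ℂ) → (Fin (n + 3) → ℂ))
        (K : ℕ) (C δ : ℝ), 0 < δ ∧ (∀ i, AnalyticOnNhd ℝ (g i) U) ∧
        ∀ p' ∈ U, IsConvexPolygon p' ∧
          (∀ i, IsConvexPolygon (g i p') ∧ Isospectral (region p') (region (g i p'))) ∧
          ∀ m ≤ n, ∀ q : Fin (m + 3) → ℂ, IsConvexPolygon q → ∀ ε : ℝ, 0 ≤ ε → ε ≤ δ →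
            (∀ k, 1 ≤ k → k ≤ K →
              |dirichletEigenvalue (region q) k - dirichletEigenvalue (region p') k| ≤ ε) →
            ∃ h : m = n, ∃ (i : Fin r) (θ : ℝ) (v : ℂ), ∀ j : Fin (m + 3),
              ‖q j - (Complex.exp (θ * Complex.I) *
                g i p' (Fin.cast (congrArg (· + 3) h) j) + v)‖ ≤ C * ε :=
  Pool.Agent.X204.STU.main n

end Pool.Agent.Results.MP_5b0138_an.LipschitzStability
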