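import Pool.Agent.X257.IP.Unif

/-! Locally uniform Lipschitz stability of the inverse spectral problem for almost all convex
polygons: on an open set of full measure finitely many Dirichlet eigenvalues, known up to a small
error `ε`, determine a convex polygon up to an error `C ε` and up to finitely many possibilities,
which depend analytically on the polygon; the number of eigenvalues and the constants are locally
uniform. -/

open Set MeasureTheory
open scoped Topology
open Pool.Agent.W780.PG (IsConvexPolygon region)
open Pool.Agent.W703.GP (Isospectral dirichletEigenvalue)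

namespace Pool.Agent.Results.MP_5b0138_an.UniformLipschitzStability

/-- There is an open set `G` of lists of `n + 3` points of the plane, containing Lebesgue-almost
every list of the vertices of a convex polygon, such that each `p` in `G` has a neighbourhood `U`
with finitely many real analytic maps `g 0, …, g (r - 1)` on `U`, a number `K` and constants `C` and
`δ > 0` such that for each `q` in `U`:
* `q` is a convex polygon, the `g i q` are convex polygons isospectral to `q`, and no two of them
  are congruent;
* if `0 ≤ ε ≤ δ` and if the first `K` Dirichlet eigenvalues of a convex polygon `q'` with at most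
  `n + 3` vertices differ from those of `q` by at most `ε`, then `q'` has exactly `n + 3` vertices,
  and for some `i` and some isometry `φ` of the plane each vertex of `q'` is at distance at most
  `C ε` from the vertex of `φ (g i q)` which corresponds to it under a bijection.
The number `K` and the constants `C`, `δ` are the same for all `q` in `U`. -/
theorem result (n : ℕ) :
    ∃ G : Set (Fin (n + 3) → ℂ), IsOpen G ∧ volume ({p | IsConvexPolygon p} \ G) = 0 ∧
      ∀ p ∈ G, ∃ U ∈ 𝓝 p, ∃ (r : ℕ) (g : Fin r → (Fin (n + 3) → ℂ) → (Fin (n + 3) → ℂ))
        (K : ℕ) (C δ : ℝ), 0 < δ ∧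
        (∀ i, AnalyticOnNhd ℝ (g i) U) ∧ ∀ q ∈ U, IsConvexPolygon q ∧
          (∀ i, IsConvexPolygon (g i q) ∧ Isospectral (region q) (region (g i q))) ∧
          (∀ i j, (∃ φ : ℂ ≃ᵢ ℂ, φ '' region (g i q) = region (g j q)) → i = j) ∧
          ∀ m ≤ n, ∀ q' : Fin (m + 3) → ℂ, IsConvexPolygon q' → ∀ ε : ℝ, 0 ≤ ε → ε ≤ δ →
            (∀ k, 1 ≤ k → k ≤ K →
              |dirichletEigenvalue (region q') k - dirichletEigenvalue (region q) k| ≤ ε) →
            m = n ∧ ∃ (i : Fin r) (φ : ℂ ≃ᵢ ℂ) (σ : Fin (m + 3) ≃ Fin (n + 3)),
              ∀ j, ‖q' j - φ (g i q (σ j))‖ ≤ C * ε :=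
  Pool.Agent.X257.IP.main n

end Pool.Agent.Results.MP_5b0138_an.UniformLipschitzStability
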